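import Pool.Agent.Lib.MP_a78e1f_lc.T.Iface
import Pool.Agent.Lib.MP_a78e1f_lc.H74.Rfm

/-!
Module RKB: positive conditions of Laver forcing with random forcing meet dense sets.
-/

set_option autoImplicit false

universe u v w

open Cardinal Filter MeasureTheory Topology

namespace Pool.Agent.Lib.MP_a78e1f_lc.H3

open Pool.Agent.Lib.MP_100a6c_lc
open Pool.Agent.Lib.MP_c5d73d_lc.F (pr)
open Pool.Agent.Lib.MP_e6fef2_lc
open Pool.Agent.Lib.MP_6d445e_gt
open Pool.Agent.Lib.MP_a78e1f_lc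
open Pool.Agent.Lib.MP_a78e1f_lc.H74

section

variable {A : Type u} [CompleteBooleanAlgebra A]

theorem mkR_mono (hR : RapiStatement.{u}) {E F : Set (Pt A)} (hE : MeasurableSet E)
    (hF : MeasurableSet F) (h : E ⊆ F) : mkR E ≤ mkR F := by
  rw [(hR A).1 E F hE hF]
  refine Filter.Eventually.of_forall fun g => ?_
  have : sec (E \ F) g = ∅ := by
    ext x
    simp only [sec, Set.mem_setOf_eq, Set.mem_diff, Set.mem_empty_iff_false, iff_false, not_and,
      not_not]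
    exact fun hx => h hx
  rw [this]
  exact measure_empty

/-- The sets `rep (W (s ++ [l]))` contain most of `rep (W s)` for large `l`. -/
theorem tail (hR : RapiStatement.{u}) (hP : RepStatement.{u}) (V : RA A) (W : ℕ → RA A)
    (h : V ≤ ⨆ m : ℕ, ⨅ l, ⨅ _ : m ≤ l, W l) :
    ∀ᶠ g in ae A, ∀ δ : ℝ, 0 < δ → ∃ m : ℕ, ∀ l, m ≤ l →
      cm.real (sec (rep V \ rep (W l)) g) ≤ δ := by
  have hrep : ∀ r : RA A, MeasurableSet (rep r) := fun r => ((hP A).1 r).1
  have hmk : ∀ r : RA A, mkR (rep r) = r := fun r => ((hP A).1 r).2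
  obtain ⟨R1, R2, R3, R4, R5, R6, R7, R8, R9, R10⟩ := hR A
  let J : ℕ → Set (Pt A) := fun m => ⋂ l, ⋂ (_ : m ≤ l), rep (W l)
  have hJ : ∀ m, MeasurableSet (J m) := fun m =>
    MeasurableSet.iInter fun l => MeasurableSet.iInter fun _ => hrep _
  have h1 : ∀ m, (⨅ l, ⨅ _ : m ≤ l, W l) ≤ mkR (J m) := by
    intro m
    have hc : (J m)ᶜ = ⋃ l, (if m ≤ l then (rep (W l))ᶜ else ∅) := by
      ext p
      simp only [J, Set.mem_compl_iff, Set.mem_iInter, Set.mem_iUnion, not_forall]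
      constructor
      · rintro ⟨l, hl, hp⟩
        exact ⟨l, by rw [if_pos hl]; exact hp⟩
      · rintro ⟨l, hp⟩
        by_cases hl : m ≤ l
        · rw [if_pos hl] at hp
          exact ⟨l, hl, hp⟩
        · rw [if_neg hl] at hp
          exact absurd hp (Set.notMem_empty _)
    have hms : ∀ l, MeasurableSet (if m ≤ l then (rep (W l))ᶜ else ∅ : Set (Pt A)) := by
      intro l
      split_ifs
      · exact (hrep _).compl
      · exact MeasurableSet.empty
    have h2 : (mkR (J m))ᶜ = ⨆ l, mkR (if m ≤ l then (rep (W l))ᶜ else ∅ : Set (Pt A)) := by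
      rw [← R3 _ (hJ m), hc, R4 _ hms]
    rw [← compl_compl (mkR (J m)), h2, le_compl_iff_disjoint_right, disjoint_iff, inf_iSup_eq,
      iSup_eq_bot]
    intro l
    by_cases hl : m ≤ l
    · rw [if_pos hl, R3 _ (hrep _), hmk]
      refine le_bot_iff.1 ?_
      calc (⨅ l, ⨅ _ : m ≤ l, W l) ⊓ (W l)ᶜ ≤ W l ⊓ (W l)ᶜ :=
            inf_le_inf_right _ ((iInf_le _ l).trans (iInf_le _ hl))
        _ ≤ ⊥ := le_of_eq inf_compl_eq_bot
    · rw [if_neg hl, R6, inf_bot_eq]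
  have h2 : V ≤ mkR (⋃ m, J m) := by
    rw [R4 J hJ]
    exact h.trans (iSup_mono h1)
  have h3 : nl (rep V \ ⋃ m, J m) := by
    rw [← R1 _ _ (hrep V) (MeasurableSet.iUnion hJ), hmk]
    exact h2
  filter_upwards [h3] with g hg δ hδ
  have hmS : ∀ m, MeasurableSet (sec (rep V \ J m) g) := fun m =>
    ((hrep V).diff (hJ m)).preimage (measurable_const.prodMk measurable_id)
  have hanti : Antitone fun m => sec (rep V \ J m) g := by
    intro m m' hmm x hx
    refine ⟨hx.1, fun hx' => hx.2 ?_⟩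
    simp only [J, Set.mem_iInter] at hx' ⊢
    exact fun l hl => hx' l (hmm.trans hl)
  have hint : (⋂ m, sec (rep V \ J m) g) = sec (rep V \ ⋃ m, J m) g := by
    ext x
    simp only [Set.mem_iInter, sec, Set.mem_setOf_eq, Set.mem_diff, Set.mem_iUnion, not_exists]
    exact ⟨fun hx => ⟨(hx 0).1, fun m => (hx m).2⟩, fun hx m => ⟨hx.1, hx.2 m⟩⟩
  have ht := tendsto_measure_iInter_atTop (μ := cm) (fun m => (hmS m).nullMeasurableSet) hanti
    ⟨0, measure_ne_top _ _⟩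
  rw [hint, hg] at ht
  have hev := (ht.eventually (gt_mem_nhds (ENNReal.ofReal_pos.2 hδ))).exists
  obtain ⟨m, hm⟩ := hev
  refine ⟨m, fun l hl => ?_⟩
  have h4 : cm (sec (rep V \ rep (W l)) g) ≤ ENNReal.ofReal δ := by
    refine (measure_mono ?_).trans hm.le
    intro x hx
    refine ⟨hx.1, fun hx' => hx.2 ?_⟩
    simp only [J, Set.mem_iInter] at hx'
    exact hx' l hl
  exact ENNReal.toReal_le_of_le_ofReal hδ.le h4

end

/-! ## Small sets along a branch -/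

/-- The weights. -/
noncomputable def wt (q : ℝ) (n : ℕ) : ℝ := q / 4 * (1 / 2) ^ n

theorem wt_pos {q : ℝ} (hq : 0 < q) (n : ℕ) : 0 < wt q n := by
  unfold wt
  positivity

theorem wt_sum {q : ℝ} (hq : 0 < q) :
    ∑' n, ENNReal.ofReal (wt q n) = ENNReal.ofReal (q / 2) := by
  have hs : Summable (wt q) := (summable_geometric_two).mul_left (q / 4)
  rw [← ENNReal.ofReal_tsum_of_nonneg (fun n => (wt_pos hq n).le) hs]
  congr 1
  have : ∑' n, wt q n = q / 4 * ∑' n : ℕ, (1 / 2 : ℝ) ^ n := tsum_mul_left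
  rw [this, tsum_geometric_two]
  ring

theorem branch_small {q : ℝ} (hq : 0 < q) (N : List ℕ → Prop)
    (hpre : ∀ s s', s <+: s' → N s' → N s) (hcmp : ∀ s s', N s → N s' → Cmp s s') (t : List ℕ)
    (E : List ℕ → Set Cs)
    (hE : ∀ s l, t <+: s → N (s ++ [l]) → cm.real (E s \ E (s ++ [l])) ≤ wt q s.length) :
    cm {x | x ∈ E t ∧ ∃ s, t <+: s ∧ N s ∧ x ∉ E s} ≤ ENNReal.ofReal (q / 2) := by
  let B : ℕ → Set Cs := fun n =>
    {x | ∃ s l, s.length = n ∧ t <+: s ∧ N (s ++ [l]) ∧ x ∈ E s \ E (s ++ [l])}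
  have hB : ∀ n, cm (B n) ≤ ENNReal.ofReal (wt q n) := by
    intro n
    by_cases h : ∃ s l, s.length = n ∧ t <+: s ∧ N (s ++ [l])
    · obtain ⟨s, l, hs, hts, hN⟩ := h
      have hsub : B n ⊆ E s \ E (s ++ [l]) := by
        rintro x ⟨s', l', hs', hts', hN', hx⟩
        have h1 : s' ++ [l'] = s ++ [l] := by
          have hlen : (s' ++ [l']).length = (s ++ [l]).length := by simp [hs, hs']
          rcases hcmp _ _ hN' hN with h2 | h2
          · exact h2.eq_of_length hlen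
          · exact (h2.eq_of_length hlen.symm).symm
        have h2 := List.append_inj' h1 rfl
        rw [h2.1, List.singleton_inj.1 h2.2] at hx
        exact hx
      refine (measure_mono hsub).trans ?_
      have h3 := hE s l hts hN
      rw [hs] at h3
      rw [← ENNReal.ofReal_toReal (measure_ne_top cm (E s \ E (s ++ [l])))]
      exact ENNReal.ofReal_le_ofReal h3
    · have : B n = ∅ := by
        rw [Set.eq_empty_iff_forall_notMem]
        rintro x ⟨s, l, h1, h2, h3, -⟩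
        exact h ⟨s, l, h1, h2, h3⟩
      rw [this, measure_empty]
      exact zero_le
  have hsub : {x | x ∈ E t ∧ ∃ s, t <+: s ∧ N s ∧ x ∉ E s} ⊆ ⋃ n, B n := by
    rintro x ⟨hx, s, hts, hNs, hxs⟩
    by_contra hcon
    apply hxs
    have hcon' : ∀ s l, t <+: s → N (s ++ [l]) → x ∈ E s → x ∈ E (s ++ [l]) := by
      intro s l h1 h2 h3
      by_contra h4
      exact hcon (Set.mem_iUnion.2 ⟨s.length, s, l, rfl, h1, h2, h3, h4⟩)
    obtain ⟨r, rfl⟩ := hts
    clear hxs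
    induction r using List.reverseRecOn with
    | nil => rw [List.append_nil]; exact hx
    | append_singleton r l ih =>
      rw [← List.append_assoc]
      rw [← List.append_assoc] at hNs
      exact hcon' _ _ (List.prefix_append _ _) hNs
        (ih (hpre _ _ (List.prefix_append _ _) hNs))
  calc cm {x | x ∈ E t ∧ ∃ s, t <+: s ∧ N s ∧ x ∉ E s} ≤ cm (⋃ n, B n) := measure_mono hsub
    _ ≤ ∑' n, cm (B n) := measure_iUnion_le B
    _ ≤ ∑' n, ENNReal.ofReal (wt q n) := ENNReal.tsum_le_tsum hB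
    _ = ENNReal.ofReal (q / 2) := wt_sum hq

/-! ## The pruned tree -/

section

variable {A : Type u} [CompleteBooleanAlgebra A]

theorem stL_ae (τ : TX IsLav A) (t : List ℕ) : ∀ᶠ g in ae A, stL τ t ∈ g →
    τ.1 t ∈ g ∧ (∀ t', τ.1 t' ∈ g → Cmp t' t) ∧
      ∀ t', t <+: t' → τ.1 t' ∈ g → ∀ m : ℕ, ∃ k, m ≤ k ∧ τ.1 (t' ++ [k]) ∈ g := by
  have h1 : ∀ᶠ g in ae A, ∀ (t' : List ℕ) (m : ℕ),
      (⨆ k, ⨆ _ : m ≤ k, τ.1 (t' ++ [k])) ∈ g ↔ ∃ k, (⨆ _ : m ≤ k, τ.1 (t' ++ [k])) ∈ g :=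
    ae_all fun t' => ae_all fun m => ae_iSup _
  filter_upwards [h1] with g hg hst
  unfold stL tst at hst
  rw [g.mem_inf, g.mem_inf] at hst
  obtain ⟨⟨h2, h3⟩, h4⟩ := hst
  refine ⟨h2, fun t' ht' => ?_, fun t' htt ht' m => ?_⟩
  · by_contra hc
    have h5 : (τ.1 t')ᶜ ∈ g := g.mono ((iInf_le _ t').trans (iInf_le _ hc)) h3
    exact g.mem_compl.1 h5 ht'
  · have h5 : (τ.1 t' ⇨ ⨅ m, ⨆ k, ⨆ _ : m ≤ k, τ.1 (t' ++ [k])) ∈ g :=
      g.mono ((iInf_le _ t').trans (iInf_le _ htt)) h4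
    rw [g.mem_himp] at h5
    have h6 := g.mono (iInf_le _ m) (h5 ht')
    rw [hg] at h6
    obtain ⟨k, hk⟩ := h6
    by_cases hmk : m ≤ k
    · rw [iSup_pos hmk] at hk
      exact ⟨k, hmk, hk⟩
    · rw [iSup_neg hmk] at hk
      exact absurd hk g.not_bot

theorem prune (hX : GmxStatement.{u}) (hF : TFam IsLav) (τ : TX IsLav A) (t : List ℕ) (b : A)
    (hb : b ≤ stL τ t) (G : List ℕ → ℕ → Ult A → Prop)
    (hm : ∀ s l, MeasurableSet {g | G s l g})
    (hG : ∀ᶠ g in ae A, ∀ s, ∃ m : ℕ, ∀ l, m ≤ l → G s l g) :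
    ∃ τ' : TX IsLav A, (∀ s, τ'.1 s ≤ τ.1 s) ∧ b ≤ tst τ' t ∧
      ∀ᶠ g in ae A, b ∈ g → ∀ s l, t <+: s → τ'.1 (s ++ [l]) ∈ g → G s l g := by
  obtain ⟨-, -, -, -, -, -, -, X8⟩ := hX IsLav hF A
  let F : List ℕ → Ult A → Prop := fun s' g =>
    τ.1 s' ∈ g ∧ (b ∈ g → ∀ s l, t <+: s → s ++ [l] <+: s' → G s l g)
  have hFm : ∀ s', MeasurableSet {g | F s' g} := by
    intro s'
    refine (measurable_mem A (τ.1 s')).inter ?_
    have : {g : Ult A | b ∈ g → ∀ s l, t <+: s → s ++ [l] <+: s' → G s l g} =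
        {g : Ult A | b ∈ g}ᶜ ∪ ⋂ s, ⋂ l, ⋂ (_ : t <+: s), ⋂ (_ : s ++ [l] <+: s'),
          {g | G s l g} := by
      ext g
      simp only [Set.mem_setOf_eq, Set.mem_union, Set.mem_compl_iff, Set.mem_iInter]
      tauto
    have h1 : MeasurableSet {g : Ult A | b ∈ g → ∀ s l, t <+: s → s ++ [l] <+: s' → G s l g} := by
      rw [this]
      exact (measurable_mem A b).compl.union (MeasurableSet.iInter fun s =>
        MeasurableSet.iInter fun l => MeasurableSet.iInter fun _ => MeasurableSet.iInter fun _ =>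
          hm s l)
    exact h1
  have hLav : ∀ᶠ g in ae A, IsLav {s' | F s' g} := by
    filter_upwards [τ.2, stL_ae τ t, hG] with g h1 h2 h3
    by_cases hbg : b ∈ g
    · obtain ⟨h4, h5, h6⟩ := h2 (g.mono hb hbg)
      refine ⟨?_, ?_, t, ?_, ?_, ?_⟩
      · rintro s s' hss ⟨h7, h8⟩
        refine ⟨h1.pre s s' hss h7, fun hbg s1 l h9 h10 => h8 hbg s1 l h9 (h10.trans hss)⟩
      · rintro s ⟨h7, -⟩
        exact h1.inc s h7
      · refine ⟨h4, fun _ s l h9 h10 => ?_⟩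
        have := h10.length_le
        have := h9.length_le
        simp only [List.length_append, List.length_singleton] at *
        omega
      · rintro s ⟨h7, -⟩
        exact h5 s h7
      · rintro s ⟨h7, h8⟩ hts m
        obtain ⟨m', hm'⟩ := h3 s
        obtain ⟨k, hk, hk'⟩ := h6 s hts h7 (max m m')
        refine ⟨k, (le_max_left _ _).trans hk, hk', fun hbg s1 l h9 h10 => ?_⟩
        rcases List.prefix_concat_iff.1 h10 with h11 | h11
        · have h12 := List.append_inj' h11 rfl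
          rw [h12.1, List.singleton_inj.1 h12.2]
          exact hm' k ((le_max_right _ _).trans hk)
        · exact h8 hbg s1 l h9 h11
    · have : {s' | F s' g} = {s' | τ.1 s' ∈ g} := by
        ext s'
        exact ⟨fun h => h.1, fun h => ⟨h, fun h' => absurd h' hbg⟩⟩
      rw [this]
      exact h1
  obtain ⟨τ', hτ'⟩ := X8 F hFm hLav
  refine ⟨τ', fun s => ?_, ?_, ?_⟩
  · refine le_of_ae ?_
    filter_upwards [hτ'] with g hg hs
    exact ((hg s).1 hs).1
  · have h0 : ∀ᶠ g in ae A, (⨅ t', ⨅ _ : ¬ Cmp t' t, (τ'.1 t')ᶜ) ∈ g ↔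
        ∀ t', (⨅ _ : ¬ Cmp t' t, (τ'.1 t')ᶜ) ∈ g := ae_iInf _
    refine le_of_ae ?_
    filter_upwards [hτ', stL_ae τ t, h0] with g hg h2 h0 hbg
    obtain ⟨h4, h5, -⟩ := h2 (g.mono hb hbg)
    unfold tst
    rw [g.mem_inf, h0]
    refine ⟨(hg t).2 ⟨h4, fun _ s l h9 h10 => ?_⟩, fun t' => ?_⟩
    · have := h10.length_le
      have := h9.length_le
      simp only [List.length_append, List.length_singleton] at *
      omega
    · by_cases hc : Cmp t' t
      · rw [iInf_neg (not_not.2 hc)]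
        exact g.mem_top
      · rw [iInf_pos hc, g.mem_compl]
        exact fun h => hc (h5 t' ((hg t').1 h).1)
  · filter_upwards [hτ'] with g hg hbg s l hts hs
    exact ((hg _).1 hs).2 hbg s l hts (List.prefix_refl _)

end

/-! ## The module -/

theorem addM_bot {A C : Type u} [CompleteBooleanAlgebra A] [CompleteBooleanAlgebra C] {f : A → C}
    {π : C → A} (h : AddM f π) : π ⊥ = ⊥ := by
  have h1 := h.lin ⊥ ⊥
  rw [bot_inf_eq, inf_bot_eq] at h1
  exact h1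

theorem addM_mono {A C : Type u} [CompleteBooleanAlgebra A] [CompleteBooleanAlgebra C] {f : A → C}
    {π : C → A} (h : AddM f π) {c d : C} (hcd : c ≤ d) : π c ≤ π d := by
  have h1 := h.sup c d
  rw [sup_eq_right.2 hcd] at h1
  rw [h1]
  exact le_sup_left

theorem ne_bot_of_prj {A C : Type u} [CompleteBooleanAlgebra A] [CompleteBooleanAlgebra C]
    {f : A → C} (hf : IsCE f) {x : C} (hx : prj f x = ⊤) {a : A} (ha : a ≠ ⊥) : f a ⊓ x ≠ ⊥ := by
  obtain ⟨-, -, -, -, -, -, -, -, -, -, -, -, -, -, -, -, A17, A18, -⟩ := all_alg A C f hf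
  intro h
  apply ha
  have h1 := A17 x a
  rw [inf_comm, h, (A18 ⊥).2 rfl, hx, top_inf_eq] at h1
  exact h1.symm

theorem le_of_top {C : Type u} [CompleteBooleanAlgebra C] {x y z : C} (hx : x = ⊤)
    (h : x ⊓ y ≤ z) : y ≤ z := by
  rw [hx, top_inf_eq] at h
  exact h

theorem exists_inf_ne_bot {C : Type v} {R : Type u} [CompleteBooleanAlgebra R] {S : Set C}
    {k : C → R} (h : ⨆ c ∈ S, k c = ⊤) {x : R} (hx : x ≠ ⊥) : ∃ c ∈ S, x ⊓ k c ≠ ⊥ := by
  by_contra hc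
  push Not at hc
  apply hx
  calc x = x ⊓ ⊤ := (inf_top_eq _).symm
    _ = ⨆ c ∈ S, x ⊓ k c := by rw [← h, inf_iSup₂_eq]
    _ = ⊥ := by
      simp only [iSup_eq_bot]
      exact hc

theorem sSup_top_of_dense {C : Type u} [CompleteBooleanAlgebra C] {D S : Set C}
    (hD : sSup D = ⊤) (h : ∀ c d, d ∈ D → c ⊓ d ≠ ⊥ → ∃ s ∈ S, s ≠ ⊥ ∧ s ≤ c ⊓ d) :
    sSup S = ⊤ := by
  by_contra hc
  have h1 : (sSup S)ᶜ ≠ ⊥ := fun h => hc (compl_eq_bot.1 h)
  rw [sSup_eq_iSup] at hD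
  obtain ⟨d, hd, h2⟩ := exists_inf_ne_bot hD h1
  obtain ⟨s, hs, h3, h4⟩ := h _ d hd h2
  apply h3
  refine le_bot_iff.1 ?_
  calc s ≤ sSup S ⊓ (sSup S)ᶜ := le_inf (le_sSup hs) (h4.trans inf_le_left)
    _ = ⊥ := inf_compl_eq_bot

/-- **RKB** -/
theorem rkb (hLpl : LplStatement.{u}) (hGnd : GndStatement.{u}) (hGmx : GmxStatement.{u})
    (hPir : PirStatement.{u, w}) (hMq : MqStatement.{u}) (hRep : RepStatement.{u})
    (hRapi : RapiStatement.{u}) (hKap : KapStatement.{u}) (hRfm : RfmStatement.{u})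
    (hMeas : MeasStatement.{u}) (hFam : FamStatement) : RkbStatement.{u} := by
  intro A _ D hD e W hW1 hW2 t
  have hF : TFam IsLav := hFam.2.1
  have hne : Nonempty (TX IsLav A) := (hGnd IsLav hF A).1
  obtain ⟨T1, -, -, -, T5, T6⟩ := all_tw1 A (TX IsLav A) (TQ IsLav A)
  have hCE : IsCE (tE IsLav A) := T1
  obtain ⟨-, -, G3, G4, G5, G6, G7, G8⟩ := hGnd IsLav hF A
  obtain ⟨-, X2, X3, -, -, X6, -, -⟩ := hGmx IsLav hF A
  obtain ⟨L1, L2, L3, L4, L5, L6, L7⟩ := hLpl A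
  obtain ⟨M1, M2, M3, M4, M5, M6, M7, -⟩ := hMq (tC IsLav A)
  obtain ⟨R1, R2, R3, R4, R5, R6, R7, R8, R9, R10⟩ := hRapi (tC IsLav A)
  obtain ⟨K1, K2, K3, K4, -, -, -⟩ := hKap (tC IsLav A)
  obtain ⟨F1, F2, F3, -⟩ := hRfm A (tC IsLav A) (tE IsLav A) hCE
  have hP := fun s => (hPir A (tC IsLav A) (tE IsLav A) hCE (lpL s) (L1 s)).1
  obtain ⟨A1, A2, A3, A4, A5, -, -, -, -, A10, A11, A12, A13, -, -, -, A17, A18, A19⟩ :=
    all_alg A (tC IsLav A) (tE IsLav A) hCE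
  have hrep : ∀ r : RA A, MeasurableSet (rep r) := fun r => ((hRep A).1 r).1
  have hmk : ∀ r : RA A, mkR (rep r) = r := fun r => ((hRep A).1 r).2
  have hrepC : ∀ r : RA (tC IsLav A), MeasurableSet (rep r) := fun r =>
    ((hRep (tC IsLav A)).1 r).1
  have hmkC : ∀ r : RA (tC IsLav A), mkR (rep r) = r := fun r => ((hRep (tC IsLav A)).1 r).2
  have hFW : ∀ s, rmap (tE IsLav A) (W s) = mkR (pulls (tE IsLav A) (rep (W s))) := fun s => by
    rw [← F3 _ (hrep _), hmk]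
  have hgt : ∀ (a : A) (σ : TX IsLav A), a ≠ ⊥ → tE IsLav A a ⊓ tG σ ≠ ⊥ :=
    fun a σ ha => ne_bot_of_prj hCE (X3 σ) ha
  by_contra hcon
  rw [hP t] at hcon
  push Not at hcon
  obtain ⟨q, hq, hb⟩ := hcon
  obtain ⟨τ, hτ⟩ := L7 t (mq (e ⊓ rmap (tE IsLav A) (W t)) q)
  obtain ⟨b, hbdef⟩ : ∃ b, b = lpL t (mq (e ⊓ rmap (tE IsLav A) (W t)) q) := ⟨_, rfl⟩
  rw [← hbdef] at hb hτ
  have hbst : b ≤ stL τ t := hτ.trans inf_le_left
  have hbfo : tE IsLav A b ⊓ tG τ ≤ mq (e ⊓ rmap (tE IsLav A) (W t)) q :=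
    (X6 τ _ b).1 (hτ.trans inf_le_right)
  -- the pruned tree
  obtain ⟨τ', hle, htst, hpr⟩ := prune hGmx hF τ t b hbst
    (fun s l g => cm.real (sec (rep (W s) \ rep (W (s ++ [l]))) g) ≤ wt q s.length)
    (fun s l => measurableSet_le ((hMeas A).1 _ ((hrep _).diff (hrep _))) measurable_const)
    (by
      filter_upwards [ae_all fun s => tail hRapi hRep (W s) (fun l => W (s ++ [l])) (hW1 s)]
        with g hg s
      exact hg s _ (wt_pos hq _))
  have htop : (TQ IsLav A).le τ' τ = ⊤ := by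
    show (⨅ t, τ'.1 t ⇨ τ.1 t) = ⊤
    rw [iInf_eq_top]
    intro s
    rw [himp_eq_top_iff]
    exact hle s
  have hGG : tG τ' ≤ (tG τ : tC IsLav A) :=
    le_of_top (by rw [htop]; exact A1) (T6.up τ' τ)
  obtain ⟨c1, hc1⟩ : ∃ c1, c1 = tE IsLav A b ⊓ tG τ' := ⟨_, rfl⟩
  have hc1t : c1 ≤ tND t := by
    rw [hc1]
    exact le_trans (inf_le_inf_right _ ((A5 _ _).2 htst)) (G8 τ' t)
  have hc1m : c1 ≤ mq (e ⊓ rmap (tE IsLav A) (W t)) q := by
    rw [hc1]
    exact le_trans (inf_le_inf_left _ hGG) hbfo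
  have hnode : ∀ s, tG τ' ⊓ tND s ≤ tE IsLav A (τ'.1 s) := by
    intro s
    rw [← G7 τ' s]
    exact A10 _
  -- the set `K`
  let K : Set (Pt (tC IsLav A)) :=
    {p | ∀ s, t <+: s → tND s ∈ p.1 → p ∈ pulls (tE IsLav A) (rep (W s))}
  have hKm : MeasurableSet K := by
    have : K = ⋂ s, ⋂ (_ : t <+: s), ({p : Pt (tC IsLav A) | tND s ∈ p.1}ᶜ ∪
        pulls (tE IsLav A) (rep (W s))) := by
      ext p
      simp only [K, Set.mem_setOf_eq, Set.mem_iInter, Set.mem_union, Set.mem_compl_iff]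
      exact forall_congr' fun s => forall_congr' fun _ => imp_iff_not_or
    rw [this]
    exact MeasurableSet.iInter fun s => MeasurableSet.iInter fun _ =>
      ((hMeas (tC IsLav A)).2.2.2.1 _).compl.union (F2 _ (hrep _))
  have hKs : ∀ s, t <+: s → kap (tND s) ⊓ mkR K ≤ rmap (tE IsLav A) (W s) := by
    intro s hs
    rw [K4 _ _ hKm, hFW]
    refine mkR_mono hRapi (((hMeas (tC IsLav A)).2.2.2.1 _).inter hKm) (F2 _ (hrep _)) ?_
    rintro p ⟨h1, h2⟩
    exact h2 s hs h1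
  obtain ⟨Q, hQ⟩ : ∃ Q, Q = e ⊓ rmap (tE IsLav A) (W t) := ⟨_, rfl⟩
  rw [← hQ] at hc1m
  have hE2 : kap c1 ⊓ (Q ⊓ mkR K) ≠ ⊥ := by
    have h1 : kap c1 ⊓ (Q ⊓ mkR K) = mkR {p | c1 ∈ p.1 ∧ p ∈ rep Q ∩ K} := by
      rw [← K4 _ _ ((hrepC _).inter hKm), R2 _ _ (hrepC _) hKm, hmkC]
    have hSm : MeasurableSet {p : Pt (tC IsLav A) | c1 ∈ p.1 ∧ p ∈ rep Q ∩ K} :=
      ((hMeas (tC IsLav A)).2.2.2.1 _).inter ((hrepC _).inter hKm)
    rw [h1, ne_eq, R7 _ hSm]
    intro hnl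
    have hnl2 : nl (rep Q \ pulls (tE IsLav A) (rep (W t))) := by
      rw [← R1 _ _ (hrepC _) (F2 _ (hrep _)), hmkC, ← hFW, hQ]
      exact inf_le_right
    obtain ⟨h, hch, h2, h3, h4, h5⟩ := exists_of_ae
      ((hnl.and hnl2).and ((M1 Q q).and (ae_pull hCE hpr)) |>.mono fun h hh =>
        (⟨hh.1.1, hh.1.2, hh.2.1, hh.2.2⟩ : _ ∧ _ ∧ _ ∧ _))
      (show c1 ≠ ⊥ by rw [hc1]; exact hgt b τ' hb)
    have hch' : tE IsLav A b ∈ h ∧ tG τ' ∈ h := h.mem_inf.1 (hc1 ▸ hch)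
    have hbg : b ∈ h.pull hCE := hch'.1
    have h6 := h5 hbg
    have h7 := branch_small hq (fun s => tND s ∈ h) (fun s s' hss hs => h.mono (G3 s s' hss) hs)
      (fun s s' hs hs' => by
        by_contra hc
        exact h.not_bot (h.mono (le_of_eq (G4 s s' hc)) (h.inf _ _ hs hs'))) t (fun s => sec (rep (W s)) (h.pull hCE))
      (fun s l hts hs => by
        refine h6 s l hts ?_
        exact h.mono (hnode (s ++ [l])) (h.inf _ _ hch'.2 hs))
    have h8 := h4.1 (h.mono hc1m hch)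
    have h9 : sec (rep Q) h ⊆ (sec {p : Pt (tC IsLav A) | c1 ∈ p.1 ∧ p ∈ rep Q ∩ K} h ∪
        sec (rep Q \ pulls (tE IsLav A) (rep (W t))) h) ∪
        {x | x ∈ sec (rep (W t)) (h.pull hCE) ∧ ∃ s, t <+: s ∧ tND s ∈ h ∧
          x ∉ sec (rep (W s)) (h.pull hCE)} := by
      intro x hx
      by_cases hx1 : x ∈ sec (pulls (tE IsLav A) (rep (W t))) h
      · by_cases hx2 : ∃ s, t <+: s ∧ tND s ∈ h ∧ x ∉ sec (rep (W s)) (h.pull hCE)
        · right
          rw [sec_pulls hCE] at hx1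
          exact ⟨hx1, hx2⟩
        · left; left
          refine ⟨hch, hx, fun s hts hs => ?_⟩
          by_contra hc
          apply hx2
          refine ⟨s, hts, hs, fun hc' => hc ?_⟩
          rw [← sec_pulls hCE] at hc'
          exact hc'
      · left; right
        exact ⟨hx, hx1⟩
    have h10 : cm (sec (rep Q) h) ≤ ENNReal.ofReal (q / 2) := by
      refine (measure_mono h9).trans ((measure_union_le _ _).trans ?_)
      rw [measure_union_null h2 h3, zero_add]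
      exact h7
    have h11 : cm.real (sec (rep Q) h) ≤ q / 2 :=
      ENNReal.toReal_le_of_le_ofReal (by positivity) h10
    linarith
  -- a condition below `D`
  let S' : Set (tC IsLav A) := {c | ∃ (a : A) (σ : TX IsLav A),
    (∃ d ∈ D, tE IsLav A a ⊓ tG σ ≤ d) ∧ c = tE IsLav A a ⊓ tG σ}
  have hS' : sSup S' = ⊤ := by
    refine sSup_top_of_dense hD fun c d hd h3 => ?_
    obtain ⟨b', σ, hb', h4⟩ := X2 _ h3
    exact ⟨_, ⟨b', σ, ⟨d, hd, h4.trans inf_le_right⟩, rfl⟩, hgt b' σ hb', h4⟩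
  obtain ⟨E2, hE2def⟩ : ∃ E2, E2 = kap c1 ⊓ (Q ⊓ mkR K) := ⟨_, rfl⟩
  rw [← hE2def] at hE2
  have hex : ∃ c' ∈ S', E2 ⊓ kap c' ≠ ⊥ := by
    have h1 := K1.sSup S'
    rw [hS', (all_alg _ _ _ K1).1] at h1
    exact exists_inf_ne_bot h1.symm hE2
  obtain ⟨_, ⟨a, σ, hd, rfl⟩, hne2⟩ := hex
  obtain ⟨c', hc'⟩ : ∃ c', c' = tE IsLav A a ⊓ tG σ := ⟨_, rfl⟩
  rw [← hc'] at hne2
  have hex2 : ∃ q' : ℝ, 0 < q' ∧ mq (E2 ⊓ kap c') q' ≠ ⊥ := by
    by_contra hc
    push Not at hc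
    exact hne2 (M5 _ hc)
  obtain ⟨q', hq', hc2⟩ := hex2
  obtain ⟨c, hcdef⟩ : ∃ c, c = mq (E2 ⊓ kap c') q' := ⟨_, rfl⟩
  have hct : c ≤ tND t := by
    have h1 : kap (tND t) ⊓ (E2 ⊓ kap c') = E2 ⊓ kap c' := by
      refine inf_eq_right.2 (inf_le_left.trans ?_)
      rw [hE2def]
      exact inf_le_left.trans (((all_alg _ _ _ K1).2.2.2.2.1 _ _).2 hc1t)
    have h2 := M4 (E2 ⊓ kap c') (tND t) q' hq'.le
    have h3 : c = tND t ⊓ mq (E2 ⊓ kap c') q' :=
      hcdef.trans ((congrArg (fun r => mq r q') h1.symm).trans h2)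
    rw [h3]
    exact inf_le_left
  have hincmp : ∀ s, ¬ Cmp s t → lpL s c = ⊥ := by
    intro s hs
    rw [L4]
    have : c ⊓ tND s = ⊥ := by
      refine le_bot_iff.1 ?_
      calc c ⊓ tND s ≤ tND s ⊓ tND t := le_inf inf_le_right (inf_le_left.trans hct)
        _ = ⊥ := G4 s t hs
    rw [this]
    exact addM_bot (L1 s)
  have hex3 : ∃ s, lpL s c ≠ ⊥ := by
    by_contra hc
    push Not at hc
    have h1 := L2 c
    rw [iSup_congr hc, iSup_bot, A18] at h1
    exact hc2 (hcdef ▸ h1)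
  obtain ⟨s, hs⟩ := hex3
  have hts : t <+: s := by
    by_contra hts
    by_cases hst : s <+: t
    · obtain ⟨r, hr⟩ := hst
      rcases r with _ | ⟨k0, r⟩
      · rw [List.append_nil] at hr
        exact hts (hr ▸ List.prefix_refl _)
      · apply hs
        rw [L3]
        refine le_bot_iff.1 ((iInf_le _ (k0 + 1)).trans ?_)
        refine iSup_le fun k => iSup_le fun hk => ?_
        rw [hincmp (s ++ [k])]
        rintro (h1 | h1)
        · rw [← hr] at h1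
          rw [List.prefix_append_right_inj] at h1
          rw [List.cons_prefix_cons] at h1
          omega
        · rw [← hr] at h1
          rw [List.prefix_append_right_inj] at h1
          rw [List.cons_prefix_cons] at h1
          omega
    · exact hs (hincmp s fun h => h.elim hst hts)
  have hfin := hW2 s a σ hd
  rw [hP s] at hfin
  apply hs
  rw [← hc'] at hfin
  refine le_bot_iff.1 ?_
  rw [← hfin q' hq', L4]
  refine addM_mono (L1 s) ?_
  have h1 := M4 (E2 ⊓ kap c') (tND s) q' hq'.le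
  rw [hcdef]
  refine le_trans (le_of_eq ((inf_comm _ _).trans h1.symm)) (M2 _ _ _ _ ?_ le_rfl)
  refine le_inf (le_inf ?_ ?_) ?_
  · refine inf_le_right.trans (inf_le_left.trans ?_)
    rw [hE2def]
    refine inf_le_right.trans (inf_le_left.trans ?_)
    rw [hQ]
    exact inf_le_left
  · exact inf_le_right.trans inf_le_right
  · refine le_trans (inf_le_inf_left _ ?_) (hKs s hts)
    rw [hE2def]
    exact inf_le_left.trans (inf_le_right.trans inf_le_right)

end Pool.Agent.Lib.MP_a78e1f_lc.H3
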